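import Pool.Agent.K3h44.RQ.Stm
import Pool.Agent.Y100.WQ.JACA

set_option autoImplicit false

/-!
Project RQ (helper44), brick JACM: Stickelberger's theorem for the Jacobi sums `J(χ, χ^a)` of order `m`
(`S_JNAM → S_BRM → S_STABM → S_JACM`). Port of `Pool.Agent.Y100.WQ.JACA`.
-/

namespace Pool.Agent.K3h72.RQ

open NumberField IsDedekindDomain HeightOneSpectrum
open Pool.Agent.K3h44.RQ
open Pool.Agent.Y125.WQ (val_int_le val_nat_eq_one)
open Pool.Agent.Y100.WQ (arch_jacobi2 order_ne3)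
open WithZero (exp)

section act

variable {m : ℕ} [NeZero m] {C : Type} [Field C] [NumberField C]

lemma rsM_coe (c : CycM m C) (t : (ZMod m)ˣ) (y : 𝓞 C) : ((rsM c t y : 𝓞 C) : C) = c.σ t (y : C) :=
  rfl

lemma mem_actM (c : CycM m C) (t : (ZMod m)ˣ) (P : HeightOneSpectrum (𝓞 C)) (y : 𝓞 C) :
    y ∈ (actM c t P).asIdeal ↔ rsM c t y ∈ P.asIdeal := Iff.rfl

lemma actM_actM (c : CycM m C) (s t : (ZMod m)ˣ) (P : HeightOneSpectrum (𝓞 C)) :
    actM c s (actM c t P) = actM c (t * s) P := by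
  ext y
  rw [mem_actM, mem_actM, mem_actM]
  have : rsM c t (rsM c s y) = rsM c (t * s) y := by
    apply RingOfIntegers.coe_injective
    rw [← RingOfIntegers.coe_eq_algebraMap, ← RingOfIntegers.coe_eq_algebraMap]
    rw [rsM_coe, rsM_coe, rsM_coe, map_mul]
    rfl
  rw [this]

end act

section chars

variable {E : Type} [Field E]

/-- a character of order `m` with values in a field with an embedding of `C` comes from `C` -/
lemma lift_charM {C K : Type*} [Field C] [Field K] (τ : C →+* K) {m : ℕ} [NeZero m] {z : C}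
    (hz : IsPrimitiveRoot z m) (T : MulChar E K) (hT : orderOf T = m) :
    ∃ χ : MulChar E C, χ.ringHomComp τ = T ∧ ∀ x : E, x ≠ 0 → ∃ k : ℕ, χ x = z ^ k := by
  have h1 : ∀ x : E, ∃ y : C, τ y = T x ∧ (x ≠ 0 → ∃ k : ℕ, y = z ^ k) := by
    intro x
    by_cases hx : x = 0
    · refine ⟨0, ?_, fun h => absurd hx h⟩
      rw [map_zero, T.map_nonunit]
      rw [hx]; exact not_isUnit_zero
    · have h2 : (T x) ^ m = 1 := by
        rw [← MulChar.pow_apply' T (NeZero.ne m), ← hT, pow_orderOf_eq_one]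
        exact MulChar.one_apply (isUnit_iff_ne_zero.mpr hx)
      obtain ⟨i, _, hi⟩ := (hz.map_of_injective τ.injective).eq_pow_of_pow_eq_one h2
      exact ⟨z ^ i, by rw [map_pow, hi], fun _ => ⟨i, rfl⟩⟩
  choose f hf hfk using h1
  let χ : MulChar E C :=
    { toFun := f
      map_one' := τ.injective (by rw [hf, map_one, map_one])
      map_mul' := fun x y => τ.injective (by rw [hf, map_mul, map_mul, hf, hf])
      map_nonunit' := fun x hx => τ.injective (by rw [hf, map_zero, T.map_nonunit hx]) }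
  refine ⟨χ, ?_, hfk⟩
  ext x
  exact hf x

end chars

/-- the number of elements of `hfM p a` in a coset of a cyclic subgroup -/
lemma count_cosetM {p : ℕ} [NeZero p] (a : ℕ) (t g : (ZMod p)ˣ) :
    ((hfM p a).filter fun u => t * u⁻¹ ∈ Subgroup.zpowers g).card =
      ((Finset.range (orderOf g)).filter fun s =>
        p < ((t : ZMod p).val * (g : ZMod p).val ^ s) % p +
          (a * ((t : ZMod p).val * (g : ZMod p).val ^ s)) % p).card := by
  classical
  have hval0 : ∀ s : ℕ, ((t * g ^ s : (ZMod p)ˣ) : ZMod p) =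
        (((t : ZMod p).val * (g : ZMod p).val ^ s : ℕ) : ZMod p) := by
    intro s
    push_cast
    rw [ZMod.natCast_zmod_val, ZMod.natCast_zmod_val]
  have hval : ∀ s : ℕ, ((t * g ^ s : (ZMod p)ˣ) : ZMod p).val =
      ((t : ZMod p).val * (g : ZMod p).val ^ s) % p := by
    intro s
    rw [hval0, ZMod.val_natCast]
  have hval2 : ∀ s : ℕ, ((a : ZMod p) * ((t * g ^ s : (ZMod p)ˣ) : ZMod p)).val =
      (a * ((t : ZMod p).val * (g : ZMod p).val ^ s)) % p := by
    intro s
    rw [hval0, ← Nat.cast_mul, ZMod.val_natCast]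
  symm
  refine Finset.card_bij (fun s _ => t * g ^ s) ?_ ?_ ?_
  · intro s hs
    simp only [Finset.mem_filter, Finset.mem_range] at hs
    simp only [hfM, Finset.mem_filter, Finset.mem_univ, true_and]
    refine ⟨?_, ?_⟩
    · rw [hval, hval2]; exact hs.2
    · rw [mul_inv, mul_inv_cancel_left]
      exact Subgroup.inv_mem _ (Subgroup.npow_mem_zpowers g s)
  · intro s hs s' hs' h
    simp only [Finset.mem_filter, Finset.mem_range] at hs hs'
    have h2 := mul_left_cancel h
    exact pow_injOn_Iio_orderOf hs.1 hs'.1 h2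
  · intro u hu
    simp only [hfM, Finset.mem_filter, Finset.mem_univ, true_and] at hu
    obtain ⟨hu1, hu2⟩ := hu
    have h3 : t⁻¹ * u ∈ Subgroup.zpowers g := by
      have := Subgroup.inv_mem _ hu2
      rwa [mul_inv, inv_inv, ] at this
    rw [← mem_powers_iff_mem_zpowers, Submonoid.mem_powers_iff] at h3
    obtain ⟨s, hs⟩ := h3
    refine ⟨s % orderOf g, ?_, ?_⟩
    · simp only [Finset.mem_filter, Finset.mem_range]
      refine ⟨Nat.mod_lt _ (orderOf_pos g), ?_⟩
      rw [← hval, ← hval2, pow_mod_orderOf, hs, mul_inv_cancel_left]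
      exact hu1
    · show t * g ^ (s % orderOf g) = u
      rw [pow_mod_orderOf, hs, mul_inv_cancel_left]

open Classical in
/-- the theorem, with the residue field as a separate type -/
lemma jac_coreM (hJN : S_JNAM) (hBR : S_BRM) (hST : S_STABM) {p : ℕ} [NeZero p] (hp2 : 2 < p)
    {a : ℕ} (ha : 0 < a) (hap : a + 2 ≤ p)
    {C : Type} [Field C] [NumberField C] (c : CycM p C) (Q : HeightOneSpectrum (𝓞 C))
    (hpQ : ((p : ℕ) : 𝓞 C) ∉ Q.asIdeal) (E : Type) [Field E] [Fintype E] (q : ℕ)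
    [Fact q.Prime] [CharP E q] (hqQ : ((q : ℕ) : 𝓞 C) ∈ Q.asIdeal)
    (hcardE : Nat.card (𝓞 C ⧸ Q.asIdeal) = Fintype.card E) :
    ∃ J : C, J ≠ 0 ∧ (∃ r : ℝ, 0 < r ∧ ∀ φ : C →+* ℂ, ‖φ J‖ ^ 2 = r) ∧
      ∀ P : HeightOneSpectrum (𝓞 C), P.valuation C J =
        WithZero.exp (-(((hfM p a).filter fun t => actM c t⁻¹ P = Q).card : ℤ)) := by
  have hp0 : 0 < p := by omega
  have hqprime : q.Prime := Fact.out
  have hqp : ¬ q ∣ p := by
    rintro ⟨k, hk⟩
    apply hpQ
    rw [hk, Nat.cast_mul]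
    exact Ideal.mul_mem_right _ _ hqQ
  have hcop : q.Coprime p := (Nat.Prime.coprime_iff_not_dvd hqprime).mpr hqp
  set g : (ZMod p)ˣ := ZMod.unitOfCoprime q hcop with hg
  have hgq : (g : ZMod p) = q := ZMod.coe_unitOfCoprime q hcop
  obtain ⟨hstabQ, hcardQ, htransQ⟩ := hST p C c Q q hp2 hqprime hqQ g hgq
  set F := orderOf g with hF
  have hFpos : 0 < F := orderOf_pos g
  have hcard : Fintype.card E = q ^ F := by rw [← hcardE]; exact hcardQ
  -- an embedding with prime Q
  obtain ⟨τ, hτ⟩ : ∃ τ : C →+* PadicAlgCl q, ∀ x : 𝓞 C, x ∈ Q.asIdeal ↔ ‖τ x‖ < 1 := by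
    have hne : Nonempty (C →ₐ[ℚ] PadicAlgCl q) := ⟨IsAlgClosed.lift⟩
    obtain ⟨τ₀⟩ := hne
    obtain ⟨P₀, hqP₀, hP₀, -⟩ := hBR p C c q hqp (τ₀ : C →+* PadicAlgCl q)
    obtain ⟨-, -, htr⟩ := hST p C c P₀ q hp2 hqprime hqP₀ g hgq
    obtain ⟨t, ht⟩ := htr Q hqQ
    refine ⟨(τ₀ : C →+* PadicAlgCl q).comp (c.σ t : C →+* C), fun x => ?_⟩
    rw [← ht, mem_actM, hP₀]
    rfl
  have hpdvd : p ∣ Fintype.card E - 1 := by
    rw [hcard]
    have h1 : ((q ^ F : ℕ) : ZMod p) = 1 := by
      have h2 : ((g ^ F : (ZMod p)ˣ) : ZMod p) = 1 := by rw [hF, pow_orderOf_eq_one]; rfl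
      rw [Units.val_pow_eq_pow_val, hgq] at h2
      exact_mod_cast h2
    have h3 : ((q ^ F - 1 : ℕ) : ZMod p) = 0 := by
      rw [Nat.cast_sub (Nat.one_le_pow _ _ hqprime.pos), h1, Nat.cast_one, sub_self]
    exact (ZMod.natCast_eq_zero_iff _ _).mp h3
  obtain ⟨T, hTo, hTn⟩ := hJN q E p F hp2 hcard hpdvd hFpos
  obtain ⟨hT1, hT2, hT3⟩ := order_ne3 ha hap hTo
  obtain ⟨χ, hχT, hχk⟩ := lift_charM τ c.prim T hTo
  have hχ1 : χ ≠ 1 := by
    intro h; apply hT1; rw [← hχT, h, MulChar.ringHomComp_one]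
  have hχ2 : χ ^ a ≠ 1 := by
    intro h
    apply hT2
    rw [← hχT, MulChar.ringHomComp_pow, h, MulChar.ringHomComp_one]
  have hχ3 : χ * χ ^ a ≠ 1 := by
    intro h
    apply hT3
    rw [← hχT, MulChar.ringHomComp_pow, ← MulChar.ringHomComp_mul, h, MulChar.ringHomComp_one]
  have hpow : ∀ x : E, (χ ^ a) x = (χ x) ^ a := fun x => MulChar.pow_apply' χ ha.ne' x
  -- integrality
  have hχint : ∀ x : E, IsIntegral ℤ (χ x) := by
    intro x
    by_cases hx : x = 0
    · rw [hx, χ.map_nonunit not_isUnit_zero]; exact isIntegral_zero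
    · obtain ⟨k, hk⟩ := hχk x hx
      rw [hk]
      exact (c.prim.isIntegral hp0).pow k
  have hJint : IsIntegral ℤ (jacobiSum χ (χ ^ a)) := by
    unfold jacobiSum
    refine IsIntegral.sum _ fun x _ => (hχint x).mul ?_
    rw [hpow]
    exact (hχint _).pow a
  have hJint' : IsIntegral ℤ (jacobiSum χ⁻¹ (χ ^ a)⁻¹) := by
    unfold jacobiSum
    refine IsIntegral.sum _ fun x _ => ?_
    rw [MulChar.inv_apply', MulChar.inv_apply', hpow]
    exact (hχint _).mul ((hχint _).pow a)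
  have hchar : ringChar C ≠ ringChar E := by
    rw [ringChar.eq_zero, ringChar.eq E q]
    exact hqprime.ne_zero.symm
  have hJJ := jacobiSum_mul_jacobiSum_inv hchar hχ1 hχ2 hχ3
  have hJ0 : jacobiSum χ (χ ^ a) ≠ 0 := by
    intro h
    rw [h, zero_mul] at hJJ
    have : (Fintype.card E : C) ≠ 0 := by
      rw [hcard]; push_cast
      exact pow_ne_zero _ (by exact_mod_cast hqprime.ne_zero)
    exact this hJJ.symm
  refine ⟨jacobiSum χ (χ ^ a), hJ0, ⟨Fintype.card E, by exact_mod_cast Fintype.card_pos, ?_⟩, ?_⟩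
  · intro φ
    rw [← jacobiSum_ringHomComp]
    apply arch_jacobi2
    · rw [MulChar.ringHomComp_ne_one_iff φ.injective]; exact hχ1
    · rw [MulChar.ringHomComp_ne_one_iff φ.injective]; exact hχ2
    · rw [← MulChar.ringHomComp_mul, MulChar.ringHomComp_ne_one_iff φ.injective]; exact hχ3
  · intro P
    by_cases hqP : ((q : ℕ) : 𝓞 C) ∈ P.asIdeal
    · -- P above q
      obtain ⟨t, ht⟩ := htransQ P hqP
      set τt : C →+* PadicAlgCl q := τ.comp (c.σ t : C →+* C) with hτt
      obtain ⟨P₁, -, hP₁, hval⟩ := hBR p C c q hqp τt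
      have hPP : P₁ = P := by
        ext x
        rw [hP₁, ← ht, mem_actM, hτ]
        rfl
      rw [hPP] at hval
      -- the value of the embedding
      set b := (t : ZMod p).val with hb
      have hbp : b < p := ZMod.val_lt _
      have hbc : b.Coprime p := ZMod.val_coe_unit_coprime t
      have hb0 : b ≠ 0 := by
        intro h0
        rw [h0, Nat.coprime_zero_left] at hbc
        omega
      have hcomp : χ.ringHomComp τt = T ^ b := by
        ext x
        rw [MulChar.ringHomComp_apply, MulChar.pow_apply' T hb0, ← hχT,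
          MulChar.ringHomComp_apply, ← map_pow]
        obtain ⟨k, hk⟩ := hχk x x.ne_zero
        rw [hτt, RingHom.comp_apply]
        congr 1
        show c.σ t (χ x) = χ x ^ b
        rw [hk, map_pow, c.σ_z, ← pow_mul, ← pow_mul, mul_comm]
      have hnorm : ‖τt (jacobiSum χ (χ ^ a))‖ = ‖((q : ℕ) : PadicAlgCl q)‖ ^
          ((Finset.range F).filter fun s =>
            p < (b * q ^ s) % p + (a * b * q ^ s) % p).card := by
        rw [← jacobiSum_ringHomComp, ← MulChar.ringHomComp_pow, hcomp, ← pow_mul, mul_comm b a]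
        exact hTn a b ha hap hbp hbc
      -- the valuation
      have hv0 : P.valuation C (jacobiSum χ (χ ^ a)) ≠ 0 := by
        rw [Ne, map_eq_zero]; exact hJ0
      obtain ⟨k, hk⟩ : ∃ k : ℤ, P.valuation C (jacobiSum χ (χ ^ a)) = exp (-k) :=
        ⟨-(WithZero.log (P.valuation C (jacobiSum χ (χ ^ a)))), by rw [neg_neg, WithZero.exp_log hv0]⟩
      have h1 := hval _ k hk
      rw [hnorm, ← zpow_natCast] at h1
      have hq0 : 0 < ‖((q : ℕ) : PadicAlgCl q)‖ := by
        rw [norm_pos_iff]; exact_mod_cast hqprime.ne_zero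
      have hq1 : ‖((q : ℕ) : PadicAlgCl q)‖ < 1 := by
        have h2 : ((q : ℕ) : PadicAlgCl q) = algebraMap ℚ_[q] (PadicAlgCl q) ((q : ℕ) : ℚ_[q]) := by
          simp
        rw [h2]
        have h3 := PadicAlgCl.norm_extends q ((q : ℕ) : ℚ_[q])
        rw [h3]
        exact Padic.norm_p_lt_one
      have h2 := zpow_right_injective₀ hq0 hq1.ne h1
      rw [hk, ← h2]
      congr 2
      -- counting
      have h3 : ((hfM p a).filter fun u => actM c u⁻¹ P = Q) =
          ((hfM p a).filter fun u => t * u⁻¹ ∈ Subgroup.zpowers g) := by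
        apply Finset.filter_congr
        intro u _
        rw [← ht, actM_actM]
        exact hstabQ _
      rw [h3, count_cosetM a t g]
      have h4 : (g : ZMod p).val = q % p := by rw [hgq, ZMod.val_natCast]
      rw [h4]
      norm_cast
      congr 1
      apply Finset.filter_congr
      intro s _
      have e1 : b * (q % p) ^ s ≡ b * q ^ s [MOD p] :=
        Nat.ModEq.mul_left _ ((Nat.mod_modEq q p).pow s)
      have e2 : a * (b * (q % p) ^ s) ≡ a * b * q ^ s [MOD p] := by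
        rw [mul_assoc]
        exact Nat.ModEq.mul_left _ e1
      rw [e1, e2]
    · -- P not above q
      have h1 : P.valuation C (jacobiSum χ (χ ^ a)) ≤ 1 := val_int_le P hJint
      have h2 : P.valuation C (jacobiSum χ⁻¹ (χ ^ a)⁻¹) ≤ 1 := val_int_le P hJint'
      have h3 : P.valuation C (jacobiSum χ (χ ^ a)) * P.valuation C (jacobiSum χ⁻¹ (χ ^ a)⁻¹) = 1 := by
        rw [← map_mul, hJJ, hcard]
        push_cast
        rw [map_pow, val_nat_eq_one P hqP, one_pow]
      have h4 : P.valuation C (jacobiSum χ (χ ^ a)) = 1 := by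
        apply le_antisymm h1
        calc (1 : WithZero (Multiplicative ℤ)) =
            P.valuation C (jacobiSum χ (χ ^ a)) * P.valuation C (jacobiSum χ⁻¹ (χ ^ a)⁻¹) := h3.symm
          _ ≤ P.valuation C (jacobiSum χ (χ ^ a)) * 1 := mul_le_mul_right h2 _
          _ = _ := mul_one _
      have h5 : ((hfM p a).filter fun t => actM c t⁻¹ P = Q) = ∅ := by
        apply Finset.filter_eq_empty_iff.mpr
        intro t _ h6
        apply hqP
        rw [← h6, mem_actM, map_natCast] at hqQ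
        exact hqQ
      rw [h4, h5]
      simp

theorem t_JACM : S_JNAM → S_BRM → S_STABM → S_JACM := by
  classical
  intro hJN hBR hST p _ hp2 a ha hap C _ _ c Q hpQ
  have hfin : Finite (𝓞 C ⧸ Q.asIdeal) := Ideal.finiteQuotientOfFreeOfNeBot _ Q.ne_bot
  obtain ⟨E, hE1, hE2, q, hq1, hq2, hq3, hcard⟩ : ∃ (E : Type) (_ : Field E) (_ : Fintype E) (q : ℕ)
      (_ : Fact q.Prime) (_ : CharP E q), ((q : ℕ) : 𝓞 C) ∈ Q.asIdeal ∧
      Nat.card (𝓞 C ⧸ Q.asIdeal) = Fintype.card E := by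
    let hf : Field (𝓞 C ⧸ Q.asIdeal) := Ideal.Quotient.field Q.asIdeal
    let hft : Fintype (𝓞 C ⧸ Q.asIdeal) := Fintype.ofFinite _
    refine ⟨𝓞 C ⧸ Q.asIdeal, hf, hft, ringChar (𝓞 C ⧸ Q.asIdeal),
      ⟨CharP.char_is_prime (𝓞 C ⧸ Q.asIdeal) _⟩, ringChar.charP _, ?_, Nat.card_eq_fintype_card⟩
    rw [← Ideal.Quotient.eq_zero_iff_mem, map_natCast]
    exact CharP.cast_eq_zero (𝓞 C ⧸ Q.asIdeal) _
  exact jac_coreM hJN hBR hST hp2 ha hap c Q hpQ E q hq3 hcard

end Pool.Agent.K3h72.RQ
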